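import Pool.Agent.Hhelper58.Final

/-!
# Non-evasive 3-balls have no knotted spanning edge

We prove: if `K` is a non-evasive finite simplicial complex whose geometric realisation is
homeomorphic to the closed unit ball of `ℝ³`, then no spanning edge of `K` is knotted.
-/

namespace Pool.Agent.Results.MP_242373_co.NoKnottedSpanningEdge

open Set Metric

/-- Euclidean three-space. -/
abbrev E3 : Type := EuclideanSpace ℝ (Fin 3)

section complexes

variable {V : Type*} [DecidableEq V]

/-- The link of the vertex `v` in `K`: all nonempty `s` with `v ∉ s` and `s ∪ {v}` a face of `K`. -/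
def lk (K : PreAbstractSimplicialComplex V) (v : V) : PreAbstractSimplicialComplex V where
  faces := {s | s.Nonempty ∧ v ∉ s ∧ insert v s ∈ K}
  isRelLowerSet_faces := by
    rintro s ⟨hs1, hs2, hs3⟩
    refine ⟨hs1, ?_⟩
    intro t hts ht
    refine ⟨ht, fun h => hs2 (hts h), ?_⟩
    exact (K.isRelLowerSet_faces hs3).2 (Finset.insert_subset_insert v hts)
      (Finset.insert_nonempty v t)

/-- The deletion `K - v`: all faces of `K` not containing `v`. -/
def dl (K : PreAbstractSimplicialComplex V) (v : V) : PreAbstractSimplicialComplex V where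
  faces := {s | s ∈ K ∧ v ∉ s}
  isRelLowerSet_faces := by
    rintro s ⟨hs1, hs2⟩
    refine ⟨(K.isRelLowerSet_faces hs1).1, ?_⟩
    intro t hts ht
    exact ⟨(K.isRelLowerSet_faces hs1).2 hts ht, fun h => hs2 (hts h)⟩

/-- Non-evasive complexes: a single vertex is non-evasive, and `K` is non-evasive if both the link
and the deletion of some vertex `v` are non-evasive. (A non-evasive complex is nonempty, so in the
second clause `v` is a vertex of `K` and `K` has more than one vertex.) -/
inductive NonEvasive : PreAbstractSimplicialComplex V → Prop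
  | point (K : PreAbstractSimplicialComplex V) (v : V) (h : ∀ s, s ∈ K ↔ s = {v}) : NonEvasive K
  | step (K : PreAbstractSimplicialComplex V) (v : V) (hl : NonEvasive (lk K v))
      (hd : NonEvasive (dl K v)) : NonEvasive K

variable [Fintype V]

/-- The geometric realisation of `K`: points `x` with nonnegative barycentric coordinates of sum
`1` which are supported on a face. -/
def geom (K : PreAbstractSimplicialComplex V) : Set (V → ℝ) :=
  {x | (∀ v, 0 ≤ x v) ∧ ∑ v, x v = 1 ∧ ∃ s ∈ K, ∀ v, x v ≠ 0 → v ∈ s}

/-- The edge `[u, w]` is a spanning edge of the triangulated ball `K`, where `e` identifies the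
geometric realisation of `K` with the closed unit ball: it is an edge, its endpoints lie on the
boundary sphere, and all points of the open edge lie in the interior. -/
structure IsSpanningEdge (K : PreAbstractSimplicialComplex V)
    (e : geom K ≃ₜ closedBall (0 : E3) 1) (u w : V) : Prop where
  ne : u ≠ w
  mem : {u, w} ∈ K
  left : ∀ x : geom K, x.1 u = 1 → ‖(e x : E3)‖ = 1
  right : ∀ x : geom K, x.1 w = 1 → ‖(e x : E3)‖ = 1
  inside : ∀ x : geom K, 0 < x.1 u → 0 < x.1 w → (∀ v, v ≠ u → v ≠ w → x.1 v = 0) →
    ‖(e x : E3)‖ < 1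

/-- `γ` is an arc in the boundary sphere joining the vertex `u` to the vertex `w`. -/
structure IsBoundaryArc (K : PreAbstractSimplicialComplex V)
    (e : geom K ≃ₜ closedBall (0 : E3) 1) (u w : V) (γ : unitInterval → E3) : Prop where
  continuous : Continuous γ
  injective : Function.Injective γ
  norm_eq : ∀ t, ‖γ t‖ = 1
  source : ∀ x : geom K, x.1 u = 1 → γ 0 = e x
  target : ∀ x : geom K, x.1 w = 1 → γ 1 = e x

/-- The closed curve formed by the edge `[u, w]` and the boundary arc `γ`. -/
def closedCurve (K : PreAbstractSimplicialComplex V)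
    (e : geom K ≃ₜ closedBall (0 : E3) 1) (u w : V) (γ : unitInterval → E3) : Set E3 :=
  (fun x : geom K => (e x : E3)) '' {x | ∀ v, v ≠ u → v ≠ w → x.1 v = 0} ∪ range γ

/-- A subset of `ℝ³` is a trivial knot if some homeomorphism of `ℝ³` takes it to the round
circle. -/
def IsTrivialKnot (C : Set E3) : Prop :=
  ∃ Φ : E3 ≃ₜ E3, Φ '' C = {x | ‖x‖ = 1 ∧ x 2 = 0}

/-- `K` is a triangulated 3-ball which has a knotted spanning edge. -/
def HasKnottedSpanningEdge (K : PreAbstractSimplicialComplex V) : Prop :=
  ∃ (e : geom K ≃ₜ closedBall (0 : E3) 1) (u w : V) (γ : unitInterval → E3),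
    IsSpanningEdge K e u w ∧ IsBoundaryArc K e u w γ ∧ ¬ IsTrivialKnot (closedCurve K e u w γ)

end complexes

variable {V : Type*} [DecidableEq V]

lemma toNE3 {K : PreAbstractSimplicialComplex V} (h : NonEvasive K) : NE3.NonEvasive K := by
  induction h with
  | point K v h => exact NE3.NonEvasive.point K v h
  | step K v _ _ ihl ihd => exact NE3.NonEvasive.step K v ihl ihd

variable [Fintype V]

lemma geom_eq (K : PreAbstractSimplicialComplex V) : geom K = NE3.geo K := by
  ext x
  constructor
  · rintro ⟨h0, h1, s, hs, hx⟩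
    refine ⟨h0, h1, NE3.mem_of_subset hs (fun v hv => hx v (NE3.mem_supp.1 hv))
      (NE3.supp_nonempty h1)⟩
  · rintro ⟨h0, h1, h2⟩
    exact ⟨h0, h1, NE3.supp x, h2, fun v hv => NE3.mem_supp.2 hv⟩

/-- **Main theorem.** No non-evasive triangulated 3-ball has a knotted spanning edge. -/
theorem result (K : PreAbstractSimplicialComplex V) (hK : NonEvasive K) :
    ¬ HasKnottedSpanningEdge K := by
  classical
  rintro ⟨e, u, w, γ, hs, hγ, hcon⟩
  apply hcon
  set h : (V → ℝ) → E3 := fun x => if hx : x ∈ geom K then (e ⟨x, hx⟩ : E3) else 0 with hh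
  have hval : ∀ (x : V → ℝ) (hx : x ∈ geom K), h x = e ⟨x, hx⟩ := by
    intro x hx
    rw [hh]; dsimp only
    rw [dif_pos hx]
  have hhomeo : NE3.HomeoOn h (NE3.geo K) (closedBall 0 1) := by
    rw [← geom_eq]
    refine ⟨?_, ?_, ?_, ?_⟩
    · rw [continuousOn_iff_continuous_restrict]
      have : (geom K).domRestrict h = fun x : geom K => (e x : E3) := by
        ext1 x
        exact hval x.1 x.2
      rw [this]
      exact continuous_subtype_val.comp e.continuous
    · intro x hx
      rw [hval x hx]; exact (e ⟨x, hx⟩).2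
    · intro x hx y hy hxy
      rw [hval x hx, hval y hy] at hxy
      have := e.injective (Subtype.ext hxy)
      exact congrArg Subtype.val this
    · intro y hy
      obtain ⟨x, hx⟩ := e.surjective ⟨y, hy⟩
      refine ⟨x.1, x.2, ?_⟩
      rw [hval x.1 x.2]
      exact congrArg Subtype.val hx
  have hvert : ∀ v, ({v} : Finset V) ∈ K → (Pi.single v 1 : V → ℝ) ∈ geom K := by
    intro v hv
    rw [geom_eq]; exact NE3.single_mem_geo hv
  have hu := hvert u (NE3.mem_left hs.mem)
  have hw := hvert w (NE3.mem_right hs.mem)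
  have h1 : ∀ v, (Pi.single v 1 : V → ℝ) v = 1 := fun v => Pi.single_eq_same v 1
  -- the midpoint of the edge
  set m : V → ℝ := NE3.jn u (1 / 2) (Pi.single w 1) with hm
  have hms : m ∈ NE3.simp' {u, w} := by
    refine (NE3.mem_simp'_pair hs.ne).2 ⟨1 / 2, ⟨by norm_num, by norm_num⟩, rfl⟩
  have hmg : m ∈ geom K := by
    rw [geom_eq]; exact NE3.simp'_subset_geo hs.mem hms
  have hmu : m u = 1 / 2 := by
    rw [hm, NE3.jn_apply_self]; norm_num
  have hmw : m w = 1 / 2 := by
    rw [hm]; unfold NE3.jn
    rw [if_neg hs.ne.symm, Pi.single_eq_same]; norm_num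
  obtain ⟨Φ, hΦ⟩ := NE3.main_e (toNE3 hK) hhomeo hs.ne hs.mem
    (by rw [hval _ hu]; exact hs.left _ (h1 u))
    (by rw [hval _ hw]; exact hs.right _ (h1 w))
    ⟨m, hms, by
      rw [hval _ hmg]
      apply ne_of_lt
      apply hs.inside
      · change 0 < m u; rw [hmu]; norm_num
      · change 0 < m w; rw [hmw]; norm_num
      · intro v hvu hvw
        exact hms.2.2 v (by simp [hvu, hvw])⟩
    (γ := fun t => γ (Set.projIcc 0 1 zero_le_one t))
    (hγ.continuous.comp continuous_projIcc).continuousOn
    (by
      intro s hs t ht hst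
      have := hγ.injective hst
      rw [Set.projIcc_of_mem _ hs, Set.projIcc_of_mem _ ht] at this
      exact congrArg Subtype.val this)
    (fun s _ => hγ.norm_eq _)
    (by
      rw [hval _ hu, ← hγ.source ⟨_, hu⟩ (h1 u)]
      congr 1
      exact Set.projIcc_left _)
    (by
      rw [hval _ hw, ← hγ.target ⟨_, hw⟩ (h1 w)]
      congr 1
      exact Set.projIcc_right _)
  refine ⟨Φ, ?_⟩
  rw [← hΦ]
  congr 1
  unfold closedCurve
  congr 1
  · ext y
    constructor
    · rintro ⟨x, hx, rfl⟩
      refine ⟨x.1, ⟨x.2.1, x.2.2.1, ?_⟩, hval x.1 x.2⟩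
      intro v hv
      apply hx v
      · rintro rfl; exact hv (by simp)
      · rintro rfl; exact hv (by simp)
    · rintro ⟨x, hx, rfl⟩
      have hxg : x ∈ geom K := by
        rw [geom_eq]; exact NE3.simp'_subset_geo hs.mem hx
      refine ⟨⟨x, hxg⟩, ?_, (hval x hxg).symm⟩
      intro v hvu hvw
      exact hx.2.2 v (by simp [hvu, hvw])
  · ext y
    constructor
    · rintro ⟨t, rfl⟩
      refine ⟨t.1, t.2, ?_⟩
      dsimp only
      rw [Set.projIcc_val]
    · rintro ⟨t, _, rfl⟩
      exact ⟨_, rfl⟩

end Pool.Agent.Results.MP_242373_co.NoKnottedSpanningEdge
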